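import Pool.Agent.H76.SW.CT

/-!
Correctness of the decision procedure (module CDC).
-/

namespace Pool.Agent.H48.SW

open Pool.Agent.H76.SW

theorem KT_mono {q n p q' n' p' : ℕ} (h1 : q ≤ q') (h2 : n ≤ n') (h3 : p ≤ p') :
    KT q n p ≤ KT q' n' p' := by
  unfold KT
  apply Nat.mul_le_mul h1
  apply Nat.pow_le_pow_right (by norm_num)
  apply Nat.pow_le_pow_right (by norm_num)
  apply Nat.pow_le_pow_left
  exact Nat.mul_le_mul (by omega) h3

theorem SM_mono {m q n p m' q' n' p' : ℕ} (h0 : m ≤ m') (h1 : q ≤ q') (h2 : n ≤ n')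
    (h3 : p ≤ p') : SM m q n p ≤ SM m' q' n' p' := by
  unfold SM
  have hk := KT_mono h1 h2 h3
  have h4 : (m * q) ^ 2 ≤ (m' * q') ^ 2 := Nat.pow_le_pow_left (Nat.mul_le_mul h0 h1) 2
  have h5 := Nat.mul_le_mul h4 (Nat.add_le_add_right hk 1)
  exact Nat.add_le_add h0 h5

theorem two_pow_mono {m n : ℕ} (h : m ≤ n) : 2 ^ m ≤ 2 ^ n :=
  Nat.pow_le_pow_right (by norm_num) h

theorem simple_of_UC {a r : ℕ} {Γ : Query (Fin a) r} (h : Γ.IsUC2RPQ) : Γ.Simple := by
  intro t ht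
  have hc : t.c = 0 := h t ht
  refine ⟨fun i => Or.inl ?_, fun j => ?_⟩
  · intro w _ l _
    rcases hl : l.1 with b | j
    · exact ⟨b, rfl⟩
    · exact absurd j.isLt (by omega)
  · exact absurd j.isLt (by omega)

theorem pf_CDC (h1 : V_PQ) (h2 : V_QP) (h3 : V_IN) (h4 : V_GC) (h5 : V_LM) (h6 : U_t3_max)
    (h7 : U_t4_small) : V_DC := by
  intro a k r hk Γ x hU hx
  obtain ⟨hs, hev⟩ := h3 a r Γ x hU hx
  have hΓ : Γ.Simple := simple_of_UC hU
  unfold Dec
  rw [hs]
  constructor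
  · rintro ⟨P, hP, ⟨hW, hS⟩, h⟩
    obtain ⟨Ω, hw, hsi, hsz, hΩ⟩ := h1 a r k _ P hP hW hS
    have key : ∀ (V : Type) [Fintype V], Fintype.card V ≤ CB a k r Γ.size →
        ∀ (E : V → Fin a → V → Prop) (z : Fin r → V), Γ.Sat E z ↔ Ω.Sat E z := by
      intro V _ hV E z
      obtain ⟨E', hE', e, he⟩ := h4.2 a V E
      have hok := h4.1 a _ E' hE'
      have e1 := he r Γ z
      have e2 := hev _ E' hok (fun i => e (z i))
      have hm : (List.ofFn fun i => ((e (z i) : Fin (Fintype.card V)) : ℕ)) ∈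
          lists (List.range (Fintype.card V)) r := by
        rw [h5]
        refine ⟨by rw [List.length_ofFn], ?_⟩
        intro y hy
        rw [List.mem_ofFn] at hy
        obtain ⟨i, rfl⟩ := hy
        exact List.mem_range.2 (e (z i)).isLt
      have e3 := h (Fintype.card V) (List.mem_range.2 (by omega)) E' hE' _ hm
        (by rw [List.length_ofFn])
      have e4 := hΩ _ E' hok (fun i => e (z i))
      have e5 := he r Ω z
      exact e1.trans (e2.symm.trans (e3.trans (e4.trans e5.symm)))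
    refine ⟨Ω, hw, ?_, ?_⟩
    · apply h7 Ω Γ hsi hΓ
      intro V _ hV E z hz
      refine (key V (hV.trans ?_) E z).2 hz
      refine (SM_mono (two_pow_mono hsz) hsz le_rfl le_rfl).trans ?_
      unfold CB
      exact Nat.le_add_left _ _
    · apply h7 Γ Ω hΓ hsi
      intro V _ hV E z hz
      refine (key V (hV.trans ?_) E z).1 hz
      refine (SM_mono le_rfl le_rfl (two_pow_mono hsz) hsz).trans ?_
      unfold CB
      exact Nat.le_add_right _ _
  · rintro ⟨Ω, hw, hle, hge⟩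
    obtain ⟨Δ, dw, ds, dsz, dle, dmax⟩ := h6 k hk r Γ hΓ
    have hgd : Γ.Le Δ := fun V _ E z hz => dmax Ω hw hle V E z (hge V E z hz)
    obtain ⟨P, hP, hW, hS, hPe⟩ := h2 a r k hk Δ dw ds (MB a k r Γ.size) (by
      unfold MB
      omega)
    refine ⟨P, hP, ⟨hW, hS⟩, ?_⟩
    intro n hn E hE z hz hl
    have hok := h4.1 a n E hE
    rw [h5] at hz
    obtain ⟨z', hz'⟩ : ∃ z' : Fin r → Fin n, z = List.ofFn fun i => ((z' i : Fin n) : ℕ) := by
      subst hl
      refine ⟨fun i => ⟨z.get i, List.mem_range.1 (hz.2 _ (List.get_mem z i))⟩, ?_⟩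
      exact (List.ofFn_get z).symm
    subst hz'
    have e1 := hev n E hok z'
    have e2 := hPe n E hok z'
    exact e1.trans ((⟨fun h => hgd (Fin n) _ z' h, fun h => dle (Fin n) _ z' h⟩ :
      Γ.Sat (toRel n a E) z' ↔ Δ.Sat (toRel n a E) z').trans e2.symm)

end Pool.Agent.H48.SW
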