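import Pool.Agent.H76.SW.T

/-!
Semantic tree-width for Regular Queries (board of helper76), module Q6 (helper48): homomorphisms
preserve the satisfaction of Regular Queries.
-/

namespace Pool.Agent.H48.SW

open Pool.Agent.H76.SW

theorem path_map {Λ V V' : Type} {F : V → Λ → V → Prop} {F' : V' → Λ → V' → Prop} (h : V → V')
    (hh : ∀ u a v, F u a v → F' (h u) a (h v)) {u v : V} {w : List (Λ × Bool)}
    (p : Path F u w v) : Path F' (h u) w (h v) := by
  induction p with
  | nil u => exact Path.nil _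
  | cons u v t l w hs _ ih =>
    refine Path.cons _ (h v) _ l w ?_ ih
    unfold Step at hs ⊢
    split_ifs at hs ⊢ with hl
    · exact hh _ _ _ hs
    · exact hh _ _ _ hs

theorem body_map {A V V' : Type} {c : ℕ} {E : V → A → V → Prop} {E' : V' → A → V' → Prop}
    {R : Fin c → V → V → Prop} {R' : Fin c → V' → V' → Prop} (h : V → V')
    (hE : ∀ u a v, E u a v → E' (h u) a (h v)) (hR : ∀ j u v, R j u v → R' j (h u) (h v))
    (b : Body A c) (μ : Fin b.n → V) (hb : b.Holds E R μ) : b.Holds E' R' (fun x => h (μ x)) := by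
  intro i
  obtain ⟨w, hw, hp⟩ := hb i
  refine ⟨w, hw, path_map h ?_ hp⟩
  intro u l v hl
  cases l with
  | inl a => exact hE u a v hl
  | inr j => exact hR j u v hl

theorem rq_map {A V V' : Type} {E : V → A → V → Prop} {E' : V' → A → V' → Prop} (h : V → V')
    (hE : ∀ u a v, E u a v → E' (h u) a (h v)) (ω : RQ A) :
    ∀ u v : V, ω.Sat E u v → ω.Sat E' (h u) (h v) := by
  induction ω with
  | cq c b sub p q ih =>
    intro u v hs
    rw [RQ.Sat] at hs ⊢
    obtain ⟨μ, hb, hp, hq⟩ := hs
    exact ⟨fun x => h (μ x), body_map h hE (fun j u v hj => ih j u v hj) b μ hb,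
      congrArg h hp, congrArg h hq⟩
  | union n sub ih =>
    intro u v hs
    rw [RQ.Sat] at hs ⊢
    obtain ⟨j, hj⟩ := hs
    exact ⟨j, ih j u v hj⟩

theorem pf_Q6 : U_q6_mono := by
  intro A V V' E E' h hh
  refine ⟨fun ω u v hs => rq_map h hh ω u v hs, ?_⟩
  intro r t z hs
  obtain ⟨μ, hb, hz⟩ := hs
  exact ⟨fun x => h (μ x), body_map h hh (fun j u v hj => rq_map h hh (t.sub j) u v hj) t.b μ hb,
    fun i => congrArg h (hz i)⟩

end Pool.Agent.H48.SW
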