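import Pool.Agent.H76.SW.T

/-!
Semantic tree-width for Regular Queries (board of helper76), module T3 (helper48): the maximal
under-approximation of a simple query.
-/

namespace Pool.Agent.H48.SW

open Pool.Agent.H76.SW

/-- the body without variables -/
def body0 (A : Type) : Body A 0 where
  n := 0
  m := 0
  src := Fin.elim0
  tgt := Fin.elim0
  st := Fin.elim0
  aut := fun i => i.elim0

/-- the query which is always true -/
def crq0 (A : Type) : CRQ A 0 where
  c := 0
  b := body0 A
  sub := Fin.elim0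
  out := Fin.elim0

theorem crq0_sat {A V : Type} (E : V → A → V → Prop) (z : Fin 0 → V) : (crq0 A).Sat E z :=
  ⟨Fin.elim0, fun i => i.elim0, fun i => i.elim0⟩

theorem no_atoms {A : Type} {c : ℕ} (b : Body A c) (h : b.n = 0) (i : Fin b.m) : False := by
  have hx := (b.src i).isLt
  omega

theorem sat_of_empty {A V : Type} {r : ℕ} (t : CRQ A r) (h : t.b.n = 0) (E : V → A → V → Prop)
    (z : Fin r → V) : t.Sat E z := by
  refine ⟨fun x => absurd x.isLt (by omega), fun i => (no_atoms t.b h i).elim, fun i => ?_⟩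
  have hx := (t.out i).isLt
  omega

theorem pf_T3 (h1 : U_t2_approx) (h2 : U_u2_simple) (h3 : U_d6_small) : U_t3_max := by
  intro A k hk r Γ hΓ
  by_cases hz : ∃ t ∈ Γ, t.b.n = 0
  · obtain ⟨t, ht, hn⟩ := hz
    have hr : r = 0 := by
      rcases Nat.eq_zero_or_pos r with h | h
      · exact h
      · have hx := (t.out ⟨0, h⟩).isLt
        omega
    subst hr
    refine ⟨[crq0 A], ?_, ?_, ?_, ?_, ?_⟩
    · intro s hs
      rw [List.mem_singleton] at hs
      subst hs
      exact ⟨h3 (V := Fin 0) _ k (by rw [Fintype.card_fin]; omega), fun j => j.elim0⟩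
    · intro s hs
      rw [List.mem_singleton] at hs
      subst hs
      exact ⟨fun i => i.elim0, fun j => j.elim0⟩
    · have hsz : Query.size [crq0 A] = 1 := by
        simp [Query.size, CRQ.size, Body.size, crq0, body0]
      rw [hsz]
      omega
    · intro V _ E z _
      exact ⟨t, ht, sat_of_empty t hn E z⟩
    · intro Ω _ _ V _ E z _
      exact ⟨crq0 A, List.mem_singleton_self _, crq0_sat E z⟩
  · have hpos : ∀ t ∈ Γ, 0 < t.b.n := fun t ht =>
      Nat.pos_of_ne_zero (fun h => hz ⟨t, ht, h⟩)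
    obtain ⟨tr, U, hU⟩ := h2 Γ hΓ
    obtain ⟨Δ, hw, hs, hsz, hp, hle, hmax⟩ :=
      h1 k hk r (2 ^ Γ.size) (Nat.pos_of_ne_zero (by positivity)) tr U
    rw [Fintype.card_fin] at hsz
    have key : ∀ (Θ : Query A r), (∀ t ∈ Θ, 0 < t.b.n) → ∀ (V : Type) (E : V → A → V → Prop)
        (z : Fin r → V), Θ.Sat E z → Nonempty V := by
      intro Θ hΘ V E z hsat
      obtain ⟨t, ht, μ, _, _⟩ := hsat
      exact ⟨μ ⟨0, hΘ t ht⟩⟩
    refine ⟨Δ, hw, hs, le_trans hsz (Nat.le_add_left _ _), ?_, ?_⟩
    · intro V _ E z hsat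
      have hne : Nonempty V := key Δ hp V E z hsat
      exact (hU V E z).2 (hle V E z hsat)
    · intro Ω hΩ hΩΓ V _ E z hsat
      have hne : Nonempty V := key Γ hpos V E z (hΩΓ V E z hsat)
      exact hmax Ω hΩ (fun V' _ _ E' z' hs' => (hU V' E' z').1 (hΩΓ V' E' z' hs')) V E z hsat

end Pool.Agent.H48.SW
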